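import Pool.Agent.Helper82.PN.Goals

/-!
# Project PN (MP_6fb600_gt), packet GEO (helper66): three small geometric facts
-/

set_option autoImplicit false

open Set

namespace Pool.Agent.Helper66.PN

open Pool.Agent.Helper82.PN

theorem gINTL : INTL := by
  classical
  intro ι σ _ _ x hx hcard j v t
  have h1 : Fintype.card ι + 1 ≤ (Finset.univ.erase j : Finset σ).card := by
    rw [Finset.card_erase_of_mem (Finset.mem_univ j), Finset.card_univ]
    omega
  obtain ⟨s, hs, hsc⟩ := Finset.exists_subset_card_eq h1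
  have hind := hx s hsc.le
  have htop : affineSpan ℝ (range fun i : s => x i) = ⊤ := by
    rw [hind.affineSpan_eq_top_iff_card_eq_finrank_add_one, Fintype.card_coe, hsc,
      Module.finrank_fintype_fun_eq_card]
  have hint := interior_convexHull_nonempty_iff_affineSpan_eq_top.2 htop
  refine hint.mono (interior_mono (convexHull_mono ?_))
  rintro _ ⟨i, rfl⟩
  refine ⟨i.1, ?_⟩
  have hij : i.1 ≠ j := by
    have := hs i.2
    exact (Finset.mem_erase.1 this).1
  simp only [mv]
  exact Function.update_of_ne hij _ _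

theorem gHYPX : HYPX := by
  classical
  intro ι σ _ _ x hcard hx
  unfold GenPos at hx
  push Not at hx
  obtain ⟨s, hs, hdep⟩ := hx
  obtain ⟨A, hsA, hA⟩ := Finset.exists_superset_card_eq hs hcard
  have hdepA : ¬ AffineIndependent ℝ (fun i : A => x i) := by
    intro h
    apply hdep
    let e : s ↪ A := ⟨fun i => ⟨i.1, hsA i.2⟩, fun a b hab => by
      apply Subtype.ext
      exact congrArg (fun z : A => z.1) hab⟩
    exact h.comp_embedding e
  have hlt : vectorSpan ℝ (range fun i : A => x i) < ⊤ := by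
    rw [lt_top_iff_ne_top]
    intro htop
    apply hdepA
    rw [affineIndependent_iff_finrank_vectorSpan_eq ℝ _ (n := Fintype.card ι)
      (by rw [Fintype.card_coe, hA]), htop, finrank_top, Module.finrank_fintype_fun_eq_card]
  obtain ⟨q, hq0, hq⟩ := Submodule.exists_le_ker_of_lt_top _ hlt
  have hne : A.Nonempty := by
    rw [← Finset.card_pos]
    omega
  obtain ⟨i0, hi0⟩ := hne
  refine ⟨q, q (x i0), A, hq0, hA, fun i hi => ?_⟩
  have h1 : x i -ᵥ x i0 ∈ vectorSpan ℝ (range fun i : A => x i) :=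
    vsub_mem_vectorSpan ℝ ⟨⟨i, hi⟩, rfl⟩ ⟨⟨i0, hi0⟩, rfl⟩
  have h2 := hq h1
  rw [LinearMap.mem_ker, vsub_eq_sub, map_sub] at h2
  linarith

theorem gHYPC : HYPC := by
  classical
  intro ι _ m hm q c hq
  obtain ⟨v0, hv0⟩ : ∃ v0, q v0 = 1 := by
    obtain ⟨w, hw⟩ : ∃ w, q w ≠ 0 := by
      by_contra h
      push Not at h
      exact hq (LinearMap.ext h)
    exact ⟨(q w)⁻¹ • w, by rw [map_smul, smul_eq_mul, inv_mul_cancel₀ hw]⟩
  have hker : Module.finrank ℝ (LinearMap.ker q) = m := by
    have h1 := Module.Dual.finrank_ker_add_one_of_ne_zero hq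
    rw [Module.finrank_fintype_fun_eq_card, hm] at h1
    omega
  let B : LinearMap.ker q ≃ₗ[ℝ] (Fin m → ℝ) := LinearEquiv.ofFinrankEq _ _ (by
    rw [hker, Module.finrank_fintype_fun_eq_card, Fintype.card_fin])
  let P : (ι → ℝ) →ₗ[ℝ] LinearMap.ker q := LinearMap.codRestrict (LinearMap.ker q)
    (LinearMap.id - q.smulRight v0) (by
      intro p
      rw [LinearMap.mem_ker]
      simp [hv0])
  let F : (ι → ℝ) →ₗ[ℝ] (Fin m ⊕ Unit → ℝ) :=
    LinearMap.pi (Sum.elim (fun i => (LinearMap.proj i).comp (B.toLinearMap.comp P)) fun _ => q)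
  have hF1 : ∀ p, F p (Sum.inr ()) = q p := fun p => rfl
  have hF2 : ∀ p i, F p (Sum.inl i) = B (P p) i := fun p i => rfl
  have hinj : Function.Injective F := by
    rw [injective_iff_map_eq_zero]
    intro p hp
    have h1 : q p = 0 := by rw [← hF1, hp]; rfl
    have h2 : B (P p) = 0 := by
      funext i
      rw [← hF2, hp]
      rfl
    have h3 : P p = 0 := by simpa using h2
    have h4 : (P p : ι → ℝ) = p - q p • v0 := rfl
    rw [h3, h1, zero_smul, sub_zero] at h4
    exact h4.symm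
  let L : (ι → ℝ) ≃ₗ[ℝ] (Fin m ⊕ Unit → ℝ) := LinearEquiv.ofInjectiveOfFinrankEq F hinj (by
    rw [Module.finrank_fintype_fun_eq_card, Module.finrank_fintype_fun_eq_card, hm,
      Fintype.card_sum, Fintype.card_fin, Fintype.card_unit])
  have hL : ∀ p, L p = F p := by
    intro p
    have h5 := LinearEquiv.coe_ofInjectiveOfFinrankEq F hinj (by
      rw [Module.finrank_fintype_fun_eq_card, Module.finrank_fintype_fun_eq_card, hm,
        Fintype.card_sum, Fintype.card_fin, Fintype.card_unit])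
    exact congrArg (fun G : (ι → ℝ) →ₗ[ℝ] (Fin m ⊕ Unit → ℝ) => G p) h5
  let w : Fin m ⊕ Unit → ℝ := Sum.elim (fun _ => 0) fun _ => -c
  refine ⟨L.toAffineEquiv.trans (AffineEquiv.constVAdd ℝ (Fin m ⊕ Unit → ℝ) w), fun p => ?_⟩
  have h5 : (L.toAffineEquiv.trans (AffineEquiv.constVAdd ℝ (Fin m ⊕ Unit → ℝ) w)) p =
    w + L p := rfl
  rw [h5, hL, Pi.add_apply, hF1]
  simp only [w, Sum.elim_inr]
  ring

end Pool.Agent.Helper66.PN
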